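import Mathlib

/-!
# Free sets of bounded width: the induction over blocks of coordinates

`sec A S y`: the `z` such that the vector equal to `y` on `S` and to `z` elsewhere is in `A`.
`P A S`: the restrictions to `S` of the elements of `A` (extended by zero).
`fiber_le`: for a block `T` of `l` coordinates, an element of `P A S` has at most `w D 3^l` extensions in `P A (S ∪ T)` if for
every `y` at most `w` different sets occur as `sec A (S ∪ T) y'` with `y' = y` on `S` and free sets in `F_3^l` have at most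
`D 3^l` elements: the extensions with the same section form a free set.
-/

set_option autoImplicit false

namespace Pool.Agent.BW36

open Finset

/-- No progression `x, x + d, x + 2d` with `d` a nonzero zero-one vector. -/
def Free {n : ℕ} (A : Finset (Fin n → ZMod 3)) : Prop :=
  ∀ x d : Fin n → ZMod 3, (∀ i, d i = 0 ∨ d i = 1) → d ≠ 0 →
    ¬ (x ∈ A ∧ x + d ∈ A ∧ x + 2 • d ∈ A)

/-- Equal to `y` on `S` and to `z` elsewhere. -/
def glue {n : ℕ} (S : Finset (Fin n)) (y z : Fin n → ZMod 3) : Fin n → ZMod 3 :=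
  fun j => if j ∈ S then y j else z j

/-- The section of `A` over the restriction of `y` to `S`. -/
def sec {n : ℕ} (A : Finset (Fin n → ZMod 3)) (S : Finset (Fin n)) (y : Fin n → ZMod 3) :
    Finset (Fin n → ZMod 3) :=
  univ.filter (fun z => glue S y z ∈ A)

/-- The restrictions to `S`. -/
def P {n : ℕ} (A : Finset (Fin n → ZMod 3)) (S : Finset (Fin n)) : Finset (Fin n → ZMod 3) :=
  A.image (fun x => glue S x 0)

theorem mem_P_union {n : ℕ} {A : Finset (Fin n → ZMod 3)} {S T : Finset (Fin n)}
    {y : Fin n → ZMod 3} (hy : y ∈ P A (S ∪ T)) : glue S y 0 ∈ P A S := by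
  obtain ⟨x, hx, rfl⟩ := mem_image.1 hy
  refine mem_image.2 ⟨x, hx, ?_⟩
  funext j
  by_cases h : j ∈ S
  · simp [glue, h]
  · simp [glue, h]

theorem P_eq_of {n : ℕ} {A : Finset (Fin n → ZMod 3)} {S T : Finset (Fin n)}
    {y y' : Fin n → ZMod 3} (hy : y ∈ P A (S ∪ T)) (hy' : y' ∈ P A (S ∪ T))
    (hS : glue S y 0 = glue S y' 0) (hT : ∀ j ∈ T, y j = y' j) : y = y' := by
  obtain ⟨x, hx, rfl⟩ := mem_image.1 hy
  obtain ⟨x', hx', rfl⟩ := mem_image.1 hy'
  funext j
  by_cases h1 : j ∈ S
  · have := congrFun hS j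
    simpa [glue, h1] using this
  · by_cases h2 : j ∈ T
    · exact hT j h2
    · simp [glue, h1, h2]

theorem step {n : ℕ} (A : Finset (Fin n → ZMod 3)) (S T : Finset (Fin n)) {c : ℝ}
    (h : ∀ y0, (((P A (S ∪ T)).filter (fun y => glue S y 0 = y0)).card : ℝ) ≤ c) :
    ((P A (S ∪ T)).card : ℝ) ≤ (P A S).card * c := by
  have h1 : (P A (S ∪ T)).card =
      ∑ y0 ∈ P A S, ((P A (S ∪ T)).filter (fun y => glue S y 0 = y0)).card :=
    card_eq_sum_card_fiberwise fun y hy => mem_P_union hy
  rw [h1]
  push_cast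
  calc ∑ y0 ∈ P A S, (((P A (S ∪ T)).filter (fun y => glue S y 0 = y0)).card : ℝ) ≤
        ∑ _y0 ∈ P A S, c := sum_le_sum fun y0 _ => h y0
    _ = (P A S).card * c := by rw [sum_const, nsmul_eq_mul]

/-- The trivial bound for the last coordinates. -/
theorem fiber_trivial {n : ℕ} (A : Finset (Fin n → ZMod 3)) (S T : Finset (Fin n))
    (y0 : Fin n → ZMod 3) :
    (((P A (S ∪ T)).filter (fun y => glue S y 0 = y0)).card : ℝ) ≤ 3 ^ T.card := by
  have h1 : ((P A (S ∪ T)).filter (fun y => glue S y 0 = y0)).card ≤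
      (univ : Finset (T → ZMod 3)).card := by
    refine card_le_card_of_injOn (fun y (k : T) => y k) (fun _ _ => mem_univ _) ?_
    intro y hy y' hy' hyy
    have hy := mem_filter.1 (mem_coe.1 hy)
    have hy' := mem_filter.1 (mem_coe.1 hy')
    exact P_eq_of hy.1 hy'.1 (hy.2.trans hy'.2.symm) fun j hj => congrFun hyy ⟨j, hj⟩
  have h2 : (univ : Finset (T → ZMod 3)).card = 3 ^ T.card := by
    rw [card_univ, Fintype.card_fun, ZMod.card, Fintype.card_coe]
  rw [h2] at h1
  exact_mod_cast h1

theorem fiber_le {n l w : ℕ} {D : ℝ} (A : Finset (Fin n → ZMod 3)) (hA : Free A)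
    (S T : Finset (Fin n)) (hT : T.card = l)
    (hD : ∀ B : Finset (Fin l → ZMod 3), Free B → (B.card : ℝ) ≤ D * 3 ^ l)
    (hw : ∀ y : Fin n → ZMod 3,
      ((univ.filter (fun y' : Fin n → ZMod 3 => ∀ j ∈ S, y' j = y j)).image
        (sec A (S ∪ T))).card ≤ w) (hD0 : 0 ≤ D) (y0 : Fin n → ZMod 3) :
    (((P A (S ∪ T)).filter (fun y => glue S y 0 = y0)).card : ℝ) ≤ w * (D * 3 ^ l) := by
  classical
  set F := (P A (S ∪ T)).filter (fun y => glue S y 0 = y0) with hF
  set C := (univ.filter (fun y' : Fin n → ZMod 3 => ∀ j ∈ S, y' j = y0 j)).image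
    (sec A (S ∪ T)) with hC
  have h1 : F.card = ∑ c ∈ C, (F.filter (fun y => sec A (S ∪ T) y = c)).card := by
    refine card_eq_sum_card_fiberwise fun y hy => mem_coe.2 (mem_image_of_mem _ ?_)
    refine mem_filter.2 ⟨mem_univ _, fun j hj => ?_⟩
    have := congrFun (mem_filter.1 (mem_coe.1 hy)).2 j
    simpa only [glue, hj, if_true] using this
  let e : T ≃ Fin l := T.equivFinOfCardEq hT
  have h2 : ∀ c, ((F.filter (fun y => sec A (S ∪ T) y = c)).card : ℝ) ≤ D * 3 ^ l := by
    intro c
    set G := F.filter (fun y => sec A (S ∪ T) y = c) with hG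
    have hinj : Set.InjOn (fun (y : Fin n → ZMod 3) (k : Fin l) => y (e.symm k)) G := by
      intro y hy y' hy' hyy
      have hy := mem_filter.1 (mem_filter.1 (mem_coe.1 hy)).1
      have hy' := mem_filter.1 (mem_filter.1 (mem_coe.1 hy')).1
      refine P_eq_of hy.1 hy'.1 (hy.2.trans hy'.2.symm) fun j hj => ?_
      have := congrFun hyy (e ⟨j, hj⟩)
      simpa using this
    rw [← card_image_of_injOn hinj]
    refine hD _ ?_
    rintro u d hd hd0 ⟨m1, m2, m3⟩
    obtain ⟨y1, hy1, e1⟩ := mem_image.1 m1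
    obtain ⟨y2, hy2, e2⟩ := mem_image.1 m2
    obtain ⟨y3, hy3, e3⟩ := mem_image.1 m3
    obtain ⟨hy1, c1⟩ := mem_filter.1 hy1
    obtain ⟨hy2, c2⟩ := mem_filter.1 hy2
    obtain ⟨hy3, c3⟩ := mem_filter.1 hy3
    obtain ⟨hy1, g1⟩ := mem_filter.1 hy1
    obtain ⟨hy2, g2⟩ := mem_filter.1 hy2
    obtain ⟨hy3, g3⟩ := mem_filter.1 hy3
    obtain ⟨x, hx, hx1⟩ := mem_image.1 hy1
    have hxs : x ∈ sec A (S ∪ T) y1 := by
      refine mem_filter.2 ⟨mem_univ _, ?_⟩
      have : glue (S ∪ T) y1 x = x := by
        rw [← hx1]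
        funext j
        by_cases h : j ∈ S ∪ T <;> simp only [glue, h, if_true, if_false]
      rw [this]
      exact hx
    have hx2 : glue (S ∪ T) y2 x ∈ A := by
      rw [c1, ← c2] at hxs
      exact (mem_filter.1 hxs).2
    have hx3 : glue (S ∪ T) y3 x ∈ A := by
      rw [c2] at *
      have hxs' : x ∈ sec A (S ∪ T) y3 := by
        rw [c3]
        rw [c1] at hxs
        exact hxs
      exact (mem_filter.1 hxs').2
    set d' : Fin n → ZMod 3 := fun j => if h : j ∈ T then d (e ⟨j, h⟩) else 0 with hd'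
    have hS1 : ∀ j ∈ S, y1 j = x j := by
      intro j hj
      rw [← hx1]
      simp [glue, hj]
    have hT1 : ∀ j ∈ T, y1 j = x j := by
      intro j hj
      rw [← hx1]
      simp [glue, hj]
    have hS2 : ∀ j ∈ S, y2 j = x j := by
      intro j hj
      have := congrFun (g2.trans g1.symm) j
      simp only [glue, hj, if_true] at this
      rw [this, hS1 j hj]
    have hS3 : ∀ j ∈ S, y3 j = x j := by
      intro j hj
      have := congrFun (g3.trans g1.symm) j
      simp only [glue, hj, if_true] at this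
      rw [this, hS1 j hj]
    have hval : ∀ (y : Fin n → ZMod 3) (v : Fin l → ZMod 3),
        (fun k : Fin l => y (e.symm k)) = v → ∀ j (hj : j ∈ T), y j = v (e ⟨j, hj⟩) := by
      intro y v hv j hj
      rw [← hv]
      simp
    refine hA x d' ?_ ?_ ⟨hx, ?_, ?_⟩
    · intro i
      by_cases h : i ∈ T
      · simp only [hd', h, dif_pos]
        exact hd _
      · left
        simp only [hd', h, dif_neg, not_false_eq_true]
    · intro h0
      apply hd0
      funext k
      have := congrFun h0 (e.symm k : Fin n)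
      simpa [hd'] using this
    · have : x + d' = glue (S ∪ T) y2 x := by
        funext j
        by_cases h1 : j ∈ T
        · have hjS : j ∈ S ∪ T := mem_union_right _ h1
          simp only [glue, hjS, if_true, Pi.add_apply, hd', h1, dif_pos]
          rw [hval y2 _ e2 j h1, Pi.add_apply, ← hval y1 _ e1 j h1, hT1 j h1]
        · by_cases h2 : j ∈ S
          · have hjS : j ∈ S ∪ T := mem_union_left _ h2
            simp only [glue, hjS, if_true, Pi.add_apply, hd', h1, dif_neg, not_false_eq_true,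
              add_zero]
            exact (hS2 j h2).symm
          · have hjS : j ∉ S ∪ T := by simp [h1, h2]
            simp only [glue, hjS, if_false, Pi.add_apply, hd', h1, dif_neg, not_false_eq_true,
              add_zero]
      rw [this]
      exact hx2
    · have : x + 2 • d' = glue (S ∪ T) y3 x := by
        funext j
        by_cases h1 : j ∈ T
        · have hjS : j ∈ S ∪ T := mem_union_right _ h1
          simp only [glue, hjS, if_true, Pi.add_apply, Pi.smul_apply, hd', h1, dif_pos]
          rw [hval y3 _ e3 j h1, Pi.add_apply, Pi.smul_apply, ← hval y1 _ e1 j h1, hT1 j h1]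
        · by_cases h2 : j ∈ S
          · have hjS : j ∈ S ∪ T := mem_union_left _ h2
            simp only [glue, hjS, if_true, Pi.add_apply, Pi.smul_apply, hd', h1, dif_neg,
              not_false_eq_true, smul_zero, add_zero]
            exact (hS3 j h2).symm
          · have hjS : j ∉ S ∪ T := by simp [h1, h2]
            simp only [glue, hjS, if_false, Pi.add_apply, Pi.smul_apply, hd', h1, dif_neg,
              not_false_eq_true, smul_zero, add_zero]
      rw [this]
      exact hx3
  rw [h1]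
  push_cast
  calc ∑ c ∈ C, ((F.filter (fun y => sec A (S ∪ T) y = c)).card : ℝ) ≤
        ∑ _c ∈ C, (D * 3 ^ l) := sum_le_sum fun c _ => h2 c
    _ = C.card * (D * 3 ^ l) := by rw [sum_const, nsmul_eq_mul]
    _ ≤ w * (D * 3 ^ l) := by
      apply mul_le_mul_of_nonneg_right _ (by positivity)
      exact_mod_cast hw y0

/-- The set of coordinates with `σ j < i`. -/
def Low {n : ℕ} (σ : Equiv.Perm (Fin n)) (i : ℕ) : Finset (Fin n) :=
  univ.filter (fun j => (σ j : ℕ) < i)

theorem low_block {n : ℕ} (σ : Equiv.Perm (Fin n)) (i l : ℕ) :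
    Low σ i ∪ univ.filter (fun j => i ≤ (σ j : ℕ) ∧ (σ j : ℕ) < i + l) = Low σ (i + l) := by
  ext j
  simp only [Low, mem_union, mem_filter, mem_univ, true_and]
  omega

theorem card_block {n : ℕ} (σ : Equiv.Perm (Fin n)) (i l : ℕ) (h : i + l ≤ n) :
    (univ.filter (fun j => i ≤ (σ j : ℕ) ∧ (σ j : ℕ) < i + l)).card = l := by
  have h1 : (univ.filter (fun j => i ≤ (σ j : ℕ) ∧ (σ j : ℕ) < i + l)).card =
      (univ.filter (fun k : Fin n => i ≤ (k : ℕ) ∧ (k : ℕ) < i + l)).card := by
    refine card_bij (fun j _ => σ j) ?_ ?_ ?_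
    · intro j hj
      simpa using hj
    · intro j _ j' _ h
      exact σ.injective h
    · intro k hk
      exact ⟨σ.symm k, by simpa using hk, by simp⟩
  rw [h1]
  have h2 : (univ.filter (fun k : Fin n => i ≤ (k : ℕ) ∧ (k : ℕ) < i + l)).map Fin.valEmbedding =
      Finset.Ico i (i + l) := by
    ext k
    simp only [mem_map, mem_filter, mem_univ, true_and, Fin.valEmbedding_apply, mem_Ico]
    constructor
    · rintro ⟨a, ha, rfl⟩
      exact ha
    · intro hk
      exact ⟨⟨k, by omega⟩, hk, rfl⟩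
  rw [← card_map Fin.valEmbedding, h2, Nat.card_Ico]
  omega

/-- Read the coordinates in the order `σ` in blocks of `l`: for every `t` and `y` at most `w` different sections over the
first `t + 1` blocks occur for the vectors which agree with `y` on the first `t` blocks. -/
def Branch {n : ℕ} (A : Finset (Fin n → ZMod 3)) (σ : Equiv.Perm (Fin n)) (l w : ℕ) : Prop :=
  ∀ t, t * l + l ≤ n → ∀ y : Fin n → ZMod 3,
    ((univ.filter (fun y' : Fin n → ZMod 3 => ∀ j ∈ Low σ (t * l), y' j = y j)).image
      (sec A (Low σ (t * l + l)))).card ≤ w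

theorem prefixes {n l w : ℕ} {D : ℝ} (A : Finset (Fin n → ZMod 3)) (hA : Free A)
    (σ : Equiv.Perm (Fin n)) (hD0 : 0 ≤ D)
    (hD : ∀ B : Finset (Fin l → ZMod 3), Free B → (B.card : ℝ) ≤ D * 3 ^ l)
    (hw : Branch A σ l w) :
    ∀ m : ℕ, m * l ≤ n → ((P A (Low σ (m * l))).card : ℝ) ≤ (w * (D * 3 ^ l)) ^ m := by
  intro m
  induction m with
  | zero =>
    intro _
    rw [zero_mul, pow_zero]
    have h : P A (Low σ 0) ⊆ {0} := by
      intro y hy
      obtain ⟨x, _, rfl⟩ := mem_image.1 hy
      rw [mem_singleton]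
      funext j
      simp [glue, Low]
    have := card_le_card h
    rw [card_singleton] at this
    exact_mod_cast this
  | succ m ih =>
    intro hm
    have hm' : m * l + l ≤ n := by
      rw [Nat.succ_mul] at hm
      exact hm
    have h1 := ih (by omega)
    rw [Nat.succ_mul, ← low_block σ (m * l) l, pow_succ]
    refine (step A _ _ (fiber_le (w := w) A hA _ _ (card_block σ _ _ hm') hD ?_ hD0)).trans ?_
    · rw [low_block]
      exact hw _ hm'
    · exact mul_le_mul_of_nonneg_right h1 (by positivity)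

/-- **Free sets of small width.** -/
theorem core {n l w : ℕ} {D : ℝ} (A : Finset (Fin n → ZMod 3)) (hA : Free A)
    (σ : Equiv.Perm (Fin n)) (hD0 : 0 ≤ D)
    (hD : ∀ B : Finset (Fin l → ZMod 3), Free B → (B.card : ℝ) ≤ D * 3 ^ l)
    (hw : Branch A σ l w) :
    (A.card : ℝ) ≤ 3 ^ n * (w * D) ^ (n / l) := by
  set m := n / l with hm
  have hml : m * l ≤ n := Nat.div_mul_le_self n l
  have h1 := prefixes A hA σ hD0 hD hw m hml
  have h2 := step A (Low σ (m * l))
    (univ.filter (fun j => m * l ≤ (σ j : ℕ) ∧ (σ j : ℕ) < m * l + (n - m * l)))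
    (fiber_trivial A _ _)
  rw [low_block, card_block σ _ _ (by omega), Nat.add_sub_cancel' hml] at h2
  have h3 : P A (Low σ n) = A := by
    have : ∀ x : Fin n → ZMod 3, glue (Low σ n) x 0 = x := by
      intro x
      funext j
      simp [glue, Low]
    unfold P
    simp only [this, image_id']
  rw [h3] at h2
  calc (A.card : ℝ) ≤ (P A (Low σ (m * l))).card * 3 ^ (n - m * l) := h2
    _ ≤ (w * (D * 3 ^ l)) ^ m * 3 ^ (n - m * l) :=
      mul_le_mul_of_nonneg_right h1 (by positivity)
    _ = 3 ^ n * (w * D) ^ m := by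
      have h4 : (3 : ℝ) ^ n = 3 ^ (l * m) * 3 ^ (n - m * l) := by
        rw [← pow_add]
        congr 1
        rw [Nat.mul_comm l m]
        omega
      rw [h4, pow_mul, ← mul_assoc, mul_pow]
      ring

end Pool.Agent.BW36
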