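import Pool.Agent.BW36.Core
import Pool.Agent.H24AP.Iter

/-!
# Free sets of bounded width: the bound with the logarithmic density theorem
-/

set_option autoImplicit false

namespace Pool.Agent.BW36

open Finset

open scoped BigOperators

theorem log_bound (n : ℕ) (hn : 2 ≤ n) (A : Finset (Fin n → ZMod 3)) (hA : Free A) :
    (A.card : ℝ) ≤ 10 * Real.log n ^ (-(1 / 16) : ℝ) * 3 ^ n := by
  classical
  have h1 := H24AP.main_bound n hn (fun x => if x ∈ A then (1 : ℝ) else 0)
    { zo := by
        intro x
        by_cases h : x ∈ A <;> simp [h]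
      fr := by
        intro x d hd hd0
        have h := hA x d hd hd0
        rw [two_nsmul, ← add_assoc] at h
        by_cases h1 : x ∈ A
        · by_cases h2 : x + d ∈ A
          · have h3 : x + d + d ∉ A := fun h3 => h ⟨h1, h2, h3⟩
            simp [h3]
          · simp [h2]
        · simp [h1] }
  have h2 : 𝔼 x : Fin n → ZMod 3, (if x ∈ A then (1 : ℝ) else 0) = (A.card : ℝ) / 3 ^ n := by
    rw [Fintype.expect_eq_sum_div_card, Finset.sum_ite_mem, Finset.univ_inter, Finset.sum_const,
      nsmul_eq_mul, mul_one]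
    congr 1
    simp [ZMod.card]
  rw [h2, div_le_iff₀ (by positivity)] at h1
  exact h1

theorem main {n l w : ℕ} (hl : 2 ≤ l) (A : Finset (Fin n → ZMod 3)) (hA : Free A)
    (σ : Equiv.Perm (Fin n)) (hw : Branch A σ l w) :
    (A.card : ℝ) ≤ 3 ^ n * (w * (10 * Real.log l ^ (-(1 / 16) : ℝ))) ^ (n / l) := by
  have hlog : 0 ≤ Real.log l := Real.log_nonneg (by exact_mod_cast le_trans (by norm_num) hl)
  exact core A hA σ (by positivity) (fun B hB => log_bound l hl B hB) hw

end Pool.Agent.BW36
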